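import Pool.Agent.H63.TC.FinDefs

/-!
Module DSC: nonzero discriminant means distinct roots.
-/

open Polynomial

namespace Pool.Agent.H63.TC

theorem dsc_deg_lt (z : Fin 4 → ℂ) :
    (∑ i : Fin 4, C (z i) * X ^ (4 - 1 - (i : ℕ))).degree < ((4 : ℕ) : WithBot ℕ) := by
  rw [← mem_degreeLT]
  refine Submodule.sum_mem _ fun i _ => ?_
  rw [mem_degreeLT]
  refine lt_of_le_of_lt (degree_C_mul_X_pow_le _ _) ?_
  have : 4 - 1 - (i : ℕ) < 4 := by omega
  exact_mod_cast this

theorem dsc_monic (z : Fin 4 → ℂ) : (monicPoly z).Monic := monic_X_pow_add (dsc_deg_lt z)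

theorem dsc_degree (z : Fin 4 → ℂ) : (monicPoly z).degree = 4 := by
  rw [monicPoly, degree_add_eq_left_of_degree_lt]
  · simp
  · rw [degree_X_pow]
    exact dsc_deg_lt z

theorem dsc_natDegree (z : Fin 4 → ℂ) : (monicPoly z).natDegree = 4 :=
  natDegree_eq_of_degree_eq_some (dsc_degree z)

theorem dsc_sep (z : Fin 4 → ℂ) : z ∈ GG 4 ↔ (monicPoly z).Separable := by
  set f := monicPoly z with hf
  have h4 : f.natDegree = 4 := dsc_natDegree z
  have h1 : 0 < f.degree := by rw [hf, dsc_degree]; norm_num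
  have h2 := resultant_deriv h1
  have h3 : f.derivative.natDegree = f.natDegree - 1 := natDegree_derivative f
  rw [← h3] at h2
  have hm : f.leadingCoeff = 1 := dsc_monic z
  rw [hm, mul_one] at h2
  have h5 : f.discr ≠ 0 ↔ resultant f f.derivative ≠ 0 := by
    rw [h2]
    simp
  show f.discr ≠ 0 ↔ _
  rw [h5, Ne, resultant_eq_zero_iff, Separable]
  have hf0 : f ≠ 0 := (dsc_monic z).ne_zero
  simp [hf0]

theorem dsc : DscStmt := by
  intro z
  rw [dsc_sep]
  constructor
  · intro h
    set f := monicPoly z with hf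
    have hs : f.Splits := IsAlgClosed.splits f
    have hnd : f.roots.Nodup := nodup_roots h
    have hcard : Fintype.card f.roots.toFinset = 4 := by
      rw [Fintype.card_coe, Multiset.toFinset_card_of_nodup hnd, ← hs.natDegree_eq_card_roots,
        dsc_natDegree]
    let e := Fintype.equivFinOfCardEq hcard
    refine ⟨fun i => ((e.symm i : f.roots.toFinset) : ℂ), fun i j hij => ?_, ?_⟩
    · exact e.symm.injective (Subtype.ext hij)
    · have h1 : ∏ i : Fin 4, (X - C ((e.symm i : f.roots.toFinset) : ℂ)) =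
          ∏ a : f.roots.toFinset, (X - C (a : ℂ)) :=
        Fintype.prod_equiv e.symm _ _ fun i => rfl
      rw [h1, Finset.prod_coe_sort f.roots.toFinset (fun a : ℂ => X - C a)]
      conv_lhs => rw [hs.eq_prod_roots_of_monic (dsc_monic z)]
      rw [Finset.prod, Multiset.toFinset_val, Multiset.dedup_eq_self.2 hnd]
  · rintro ⟨r, hr, h⟩
    rw [h]
    exact separable_prod_X_sub_C_iff.2 hr

end Pool.Agent.H63.TC
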