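import Pool.Agent.H63.TC.Stmts

/-!
Module GRO: growth of infinitesimal generators of the disc.
-/

open Complex Metric Set Filter Topology

namespace Pool.Agent.H63.TC

theorem gro : GroStmt := by
  intro f M hf hM z hz
  obtain ⟨hd, hre⟩ := hf
  have hz1 : ‖z‖ < 1 := by simpa using hz
  have hM0 : 0 ≤ M := (norm_nonneg _).trans (hM 0 (by simp))
  have ha : ‖f 0‖ ≤ M := hM 0 (by simp)
  set a : ℂ := f 0 with ha'
  let g : ℂ → ℂ := fun w => a - (starRingEnd ℂ) a * w ^ 2 - f w
  have hg0 : g 0 = 0 := by simp [g, ha']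
  have hgd : DifferentiableOn ℂ g (ball 0 1) := by
    refine DifferentiableOn.sub ?_ hd
    fun_prop
  let q : ℂ → ℂ := dslope g 0
  have hqd : DifferentiableOn ℂ q (ball 0 1) :=
    (Complex.differentiableOn_dslope (ball_mem_nhds _ one_pos)).2 hgd
  have hq : ∀ w, w ≠ 0 → q w = g w / w := by
    intro w hw
    simp only [q]
    rw [dslope_of_ne _ hw, slope_def_field, hg0, sub_zero, sub_zero]
  have hq' : ∀ w ∈ ball (0 : ℂ) 1, w ≠ 0 → 0 ≤ (q w).re := by
    intro w hw hw0
    have h1 := hre w hw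
    have h2 : q w = (g w * (starRingEnd ℂ) w) / ((‖w‖ ^ 2 : ℝ) : ℂ) := by
      rw [hq w hw0, ← Complex.normSq_eq_norm_sq, ← Complex.mul_conj]
      have : (starRingEnd ℂ) w ≠ 0 := by simpa using hw0
      field_simp
    rw [h2, Complex.div_ofReal_re]
    exact div_nonneg h1 (by positivity)
  have hq0 : 0 ≤ (q 0).re := by
    have hc : ContinuousAt q 0 :=
      (hqd.differentiableAt (ball_mem_nhds _ one_pos)).continuousAt
    have h1 : Tendsto (fun w => (q w).re) (𝓝[≠] 0) (𝓝 (q 0).re) :=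
      (Complex.continuous_re.continuousAt.comp hc).tendsto.mono_left nhdsWithin_le_nhds
    refine ge_of_tendsto h1 ?_
    rw [eventually_nhdsWithin_iff]
    filter_upwards [ball_mem_nhds (0 : ℂ) one_pos] with w hw hw0
    exact hq' w hw hw0
  have hqre : ∀ w ∈ ball (0 : ℂ) 1, 0 ≤ (q w).re := by
    intro w hw
    by_cases h : w = 0
    · rw [h]; exact hq0
    · exact hq' w hw h
  have hgM : ∀ w, ‖w‖ ≤ 1 / 2 → ‖g w‖ ≤ 9 / 4 * M := by
    intro w hw
    have h1 : ‖(starRingEnd ℂ) a * w ^ 2‖ ≤ M * (1 / 4) := by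
      rw [norm_mul, Complex.norm_conj, norm_pow]
      have : ‖w‖ ^ 2 ≤ 1 / 4 := by nlinarith [norm_nonneg w]
      exact mul_le_mul ha this (by positivity) hM0
    calc ‖g w‖ ≤ ‖a‖ + ‖(starRingEnd ℂ) a * w ^ 2‖ + ‖f w‖ := by
          refine (norm_sub_le _ _).trans ?_
          gcongr
          exact norm_sub_le _ _
      _ ≤ M + M * (1 / 4) + M := by
          gcongr
          exact hM w hw
      _ = 9 / 4 * M := by ring
  have hq0M : ‖q 0‖ ≤ 9 / 2 * M := by
    have h1 : q 0 = deriv g 0 := dslope_same _ _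
    rw [h1]
    have h2 := Complex.norm_deriv_le_of_forall_mem_sphere_norm_le (c := (0 : ℂ)) (R := 1 / 2)
      (C := 9 / 4 * M) (f := g) (by norm_num) (hgd.diffContOnCl_ball (closedBall_subset_ball (by norm_num))) (fun w hw => hgM w (by
            have : ‖w‖ = 1 / 2 := by simpa using hw
            exact this.le))
    linarith
  have key : ∀ ε : ℝ, 0 < ε → ‖f z‖ ≤ 20 * M / (1 - ‖z‖) + ε := by
    intro ε hε
    have h1z : 0 < 1 - ‖z‖ := by linarith
    have hb := Complex.borelCaratheodory (f := fun w => - q w) (M := ε * (1 - ‖z‖) / 2) (R := 1)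
      (z := z) (by positivity) hqd.neg (by
        intro w hw
        have := hqre w hw
        simp only [Set.mem_ofPred_eq, neg_re]
        have h3 : 0 ≤ ε * (1 - ‖z‖) / 2 := by positivity
        linarith) one_pos hz
    rw [norm_neg, norm_neg] at hb
    have hfz : f z = a - (starRingEnd ℂ) a * z ^ 2 - z * q z := by
      by_cases h : z = 0
      · rw [h]; simp [ha']
      · rw [hq z h]
        simp only [g]
        field_simp
        ring
    have h2 : ‖f z‖ ≤ ‖a‖ + ‖(starRingEnd ℂ) a * z ^ 2‖ + ‖z * q z‖ := by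
      rw [hfz]
      refine (norm_sub_le _ _).trans ?_
      gcongr
      exact norm_sub_le _ _
    have h3 : ‖(starRingEnd ℂ) a * z ^ 2‖ ≤ M := by
      rw [norm_mul, Complex.norm_conj, norm_pow]
      have : ‖z‖ ^ 2 ≤ 1 := by nlinarith [norm_nonneg z]
      calc ‖a‖ * ‖z‖ ^ 2 ≤ M * 1 := mul_le_mul ha this (by positivity) hM0
        _ = M := mul_one M
    have h4 : ‖z * q z‖ ≤ ‖q z‖ := by
      rw [norm_mul]
      exact mul_le_of_le_one_left (norm_nonneg _) hz1.le
    have h5 : 2 * (ε * (1 - ‖z‖) / 2) * ‖z‖ / (1 - ‖z‖) ≤ ε := by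
      rw [div_le_iff₀ h1z]
      nlinarith [mul_pos hε h1z, norm_nonneg z]
    have h6 : ‖q 0‖ * (1 + ‖z‖) / (1 - ‖z‖) ≤ 9 * M / (1 - ‖z‖) := by
      rw [div_le_div_iff_of_pos_right h1z]
      have h6a : ‖q 0‖ * (1 + ‖z‖) ≤ (9 / 2 * M) * 2 := by
        apply mul_le_mul hq0M (by linarith) (by positivity) (by positivity)
      linarith
    have h7 : 2 * M ≤ 2 * M / (1 - ‖z‖) := by
      rw [le_div_iff₀ h1z]
      nlinarith [norm_nonneg z]
    have h8 : 2 * M / (1 - ‖z‖) + 9 * M / (1 - ‖z‖) ≤ 20 * M / (1 - ‖z‖) := by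
      rw [← add_div]
      gcongr
      linarith
    linarith
  exact le_of_forall_pos_le_add key

end Pool.Agent.H63.TC
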