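import Pool.Agent.H63.TC.Stmts

/-!
Module ZM1: identities for the Cayley maps.
-/

open Complex Metric Set Filter Topology

namespace Pool.Agent.H63.TC

theorem zm1_norm_lt {z : ℂ} (hz : z ∈ ball (0 : ℂ) 1) : ‖z‖ < 1 := by
  simpa using hz

theorem zm1_one_sub_ne {z : ℂ} (hz : ‖z‖ < 1) : (1 : ℂ) - z ≠ 0 := by
  intro h
  have : z = 1 := (sub_eq_zero.1 h).symm
  rw [this] at hz
  simp at hz

theorem zm1_add_ne {z : ℂ} (hz : ‖z‖ < 1) : (1 : ℂ) + z ≠ 0 := by
  have := zm1_one_sub_ne (z := -z) (by simpa using hz)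
  simpa using this

/-- the denominator -/
theorem zm1_den (c d : ℤ) (a b : ℤ) (h : a * d - b * c = 1) {τ : ℂ} (hτ : 0 < τ.im) :
    (c * τ + d : ℂ) ≠ 0 := by
  intro h0
  have h1 : ((c * τ + d : ℂ)).im = 0 := by rw [h0]; rfl
  have h2 : (c : ℝ) * τ.im = 0 := by simpa using h1
  have hc : (c : ℝ) = 0 := by
    rcases mul_eq_zero.1 h2 with h | h
    · exact h
    · exact absurd h hτ.ne'
  have hc' : c = 0 := by exact_mod_cast hc
  subst hc'
  have hd : (d : ℂ) = 0 := by simpa using h0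
  have hd' : d = 0 := by exact_mod_cast hd
  subst hd'
  simp at h

theorem zm1_four (a b c d : ℤ) (h : a * d - b * c = 1) {τ : ℂ} (hτ : 0 < τ.im) :
    (c * τ + d) * (a - c * ((a * τ + b) / (c * τ + d))) = 1 := by
  have h0 := zm1_den c d a b h hτ
  have h1 : (a : ℂ) * d - b * c = 1 := by exact_mod_cast h
  field_simp
  linear_combination h1

theorem zm1_im (a b c d : ℤ) (h : a * d - b * c = 1) {τ : ℂ} (hτ : 0 < τ.im) :
    ((a * τ + b) / (c * τ + d)).im = τ.im / ‖(c * τ + d : ℂ)‖ ^ 2 := by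
  have h0 := zm1_den c d a b h hτ
  have h1 : (a : ℝ) * d - b * c = 1 := by exact_mod_cast h
  rw [Complex.div_im, ← Complex.normSq_eq_norm_sq]
  have hn : Complex.normSq (c * τ + d) ≠ 0 := by simpa [Complex.normSq_eq_zero] using h0
  rw [← sub_div, div_left_inj' hn]
  simp only [add_im, mul_im, intCast_re, intCast_im, add_re, mul_re]
  ring_nf
  linear_combination τ.im * h1

theorem zm1_six {τ z : ℂ} (hτ : 0 < τ.im) (hz : ‖z‖ < 1) :
    (cay τ z).im = τ.im * (1 - ‖z‖ ^ 2) / ‖1 - z‖ ^ 2 := by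
  have h0 := zm1_one_sub_ne hz
  have hn : Complex.normSq (1 - z) ≠ 0 := by simpa [Complex.normSq_eq_zero] using h0
  rw [cay, Complex.div_im, ← Complex.normSq_eq_norm_sq, ← Complex.normSq_eq_norm_sq, ← sub_div,
    div_left_inj' hn, Complex.normSq_apply z]
  simp only [sub_im, sub_re, mul_im, mul_re, conj_re, conj_im, one_re, one_im]
  ring

theorem zm1_den2 {τ z : ℂ} (hτ : 0 < τ.im) (hz : 0 < z.im) :
    (z - (starRingEnd ℂ) τ) ≠ 0 := by
  intro h
  have : (z - (starRingEnd ℂ) τ).im = 0 := by rw [h]; rfl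
  simp only [sub_im, conj_im] at this
  linarith

theorem zm1_cay (τ A B : ℂ) (hA : A ≠ 0) :
    cay τ (B / A) = (τ * A - (starRingEnd ℂ) τ * B) / (A - B) := by
  rw [cay]
  have h1 : τ - (starRingEnd ℂ) τ * (B / A) = (τ * A - (starRingEnd ℂ) τ * B) / A := by
    field_simp
  have h2 : 1 - B / A = (A - B) / A := by field_simp
  rw [h1, h2, div_div_div_cancel_right₀ hA]

theorem zm1_three (a b' c d m k : ℤ) (h : a * d - b' * c = 1) (τ : ℂ) (a₀ b t : ℝ)
    (hτ : 0 < τ.im) : act a b' c d m k (τ, a₀ * τ + b + t) = ((a * τ + b') / (c * τ + d),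
      (a₀ * d - b * c + 2 * m) * ((a * τ + b') / (c * τ + d)) + (b * a - a₀ * b' + 2 * k) +
        t * (a - c * ((a * τ + b') / (c * τ + d)))) := by
  have h0 := zm1_den c d a b' h hτ
  have h1 : (a : ℂ) * d - b' * c = 1 := by exact_mod_cast h
  have h2 : (1 : ℂ) / (c * τ + d) = a - c * ((a * τ + b') / (c * τ + d)) := by
    have := zm1_four a b' c d h hτ
    rw [div_eq_iff h0]
    linear_combination -this
  have h3 : τ / (c * τ + d) = d * ((a * τ + b') / (c * τ + d)) - b' := by
    rw [div_eq_iff h0, sub_mul, mul_assoc, div_mul_cancel₀ _ h0]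
    linear_combination -τ * h1
  have h4 : (a₀ * τ + b + t : ℂ) / (c * τ + d) =
      a₀ * (τ / (c * τ + d)) + (b + t) * (1 / (c * τ + d)) := by
    field_simp
    ring
  rw [act]
  simp only
  rw [h4, h2, h3]
  congr 1
  ring

theorem zm1 : Zm1Stmt := by
  refine ⟨?_, ?_, zm1_three, ?_, ?_, ?_, ?_⟩
  · -- (1)
    intro r θ hr hr1
    set e : ℂ := exp (θ * I) with he
    have hen : ‖e‖ = 1 := by rw [he]; exact Complex.norm_exp_ofReal_mul_I θ
    have he0 : e ≠ 0 := by
      intro h; rw [h] at hen; simp at hen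
    have hec : (starRingEnd ℂ) e = e⁻¹ := by
      rw [Complex.inv_def, Complex.normSq_eq_norm_sq, hen]
      simp
    have hre : ‖(r : ℂ) * e‖ < 1 := by
      rw [norm_mul, hen, mul_one, Complex.norm_real, Real.norm_of_nonneg hr]
      exact hr1
    have h1 : (1 : ℂ) - r * e ≠ 0 := zm1_one_sub_ne hre
    have h2 : e - r ≠ 0 := by
      intro h
      have : e = r := sub_eq_zero.1 h
      rw [this, Complex.norm_real, Real.norm_of_nonneg hr] at hen
      linarith
    have hl : ‖(e - r) / (1 - r * e)‖ = 1 := by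
      rw [norm_div]
      have : ‖e - r‖ = ‖(1 : ℂ) - r * e‖ := by
        have h3 : e - r = e * (starRingEnd ℂ) (1 - r * e) := by
          simp only [map_sub, map_mul, map_one, hec, Complex.conj_ofReal]
          field_simp
        rw [h3, norm_mul, hen, one_mul, Complex.norm_conj]
      rw [this, div_self]
      simpa using h1
    refine ⟨(e - r) / (1 - r * e), hl, fun ζ hζ => ?_⟩
    have hζ' := zm1_norm_lt hζ
    have h4 : (1 : ℂ) + r * ζ ≠ 0 := zm1_add_ne (by
      rw [norm_mul, Complex.norm_real, Real.norm_of_nonneg hr]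
      nlinarith [norm_nonneg ζ])
    rw [← mul_div_assoc, zm1_cay I _ _ h4, div_mul_eq_mul_div, zm1_cay _ _ _ h1]
    have h5 : cay I (r * e) = I * (1 + r * e) / (1 - r * e) := by
      rw [cay, Complex.conj_I]
      congr 1
      ring
    have h6 : (starRingEnd ℂ) (cay I (r * e)) = - I * (e + r) / (e - r) := by
      rw [h5]
      simp only [map_sub, map_mul, map_div₀, map_one, map_add, hec, Complex.conj_ofReal,
        Complex.conj_I]
      have h7 : (1 : ℂ) - r * e⁻¹ = (e - r) / e := by field_simp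
      have h8 : (1 : ℂ) + r * e⁻¹ = (e + r) / e := by field_simp
      rw [h7, h8]
      field_simp
    rw [h6, h5, Complex.conj_I, div_mul_cancel₀ _ h1]
    have h9 : -I * (e + r) / (e - r) * ((e - r) * ζ) = -I * (e + r) * ζ := by
      field_simp
    rw [h9]
    congr 1 <;> ring
  · -- (2)
    intro a b c d h τ hτ
    have h0 := zm1_den c d a b h hτ
    have h0' : (c * (starRingEnd ℂ) τ + d : ℂ) ≠ 0 := by
      intro h1
      apply h0
      have := congrArg (starRingEnd ℂ) h1
      simpa using this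
    have hl : ‖(c * (starRingEnd ℂ) τ + d) / (c * τ + d : ℂ)‖ = 1 := by
      have h1 : (c * (starRingEnd ℂ) τ + d : ℂ) = (starRingEnd ℂ) (c * τ + d) := by simp
      rw [norm_div, h1, Complex.norm_conj, div_self]
      simpa using h0
    refine ⟨_, hl, fun w hw => ?_⟩
    have hw' := zm1_norm_lt hw
    have h1 := zm1_one_sub_ne hw'
    rw [div_mul_eq_mul_div, zm1_cay _ _ _ h0]
    have h2 : (starRingEnd ℂ) ((a * τ + b) / (c * τ + d)) =
        (a * (starRingEnd ℂ) τ + b) / (c * (starRingEnd ℂ) τ + d) := by simp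
    rw [h2, div_mul_cancel₀ _ h0]
    have h3 : (a * (starRingEnd ℂ) τ + b) / (c * (starRingEnd ℂ) τ + d) *
        ((c * (starRingEnd ℂ) τ + d) * w) = (a * (starRingEnd ℂ) τ + b) * w := by
      rw [← mul_assoc, div_mul_cancel₀ _ h0']
    rw [h3, cay]
    have h4 : (a * ((τ - (starRingEnd ℂ) τ * w) / (1 - w)) + b : ℂ) =
        (a * τ + b - (a * (starRingEnd ℂ) τ + b) * w) / (1 - w) := by
      field_simp
      ring
    have h5 : (c * ((τ - (starRingEnd ℂ) τ * w) / (1 - w)) + d : ℂ) =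
        (c * τ + d - (c * (starRingEnd ℂ) τ + d) * w) / (1 - w) := by
      field_simp
      ring
    rw [h4, h5, div_div_div_cancel_right₀ h1]
  · -- (4)
    intro a b c d h τ hτ
    refine ⟨zm1_four a b c d h hτ, ?_, zm1_im a b c d h hτ⟩
    rw [zm1_im a b c d h hτ]
    have h0 := zm1_den c d a b h hτ
    have : 0 < ‖(c * τ + d : ℂ)‖ := norm_pos_iff.2 h0
    positivity
  · -- (5)
    intro r θ hr hr1
    have hen : ‖exp (θ * I)‖ = 1 := Complex.norm_exp_ofReal_mul_I θ
    have hre : ‖(r : ℂ) * exp (θ * I)‖ = r := by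
      rw [norm_mul, hen, mul_one, Complex.norm_real, Real.norm_of_nonneg hr]
    rw [zm1_six (by simp) (by rw [hre]; exact hr1), hre]
    simp
  · -- (6)
    intro τ z hτ hz
    have hz' := zm1_norm_lt hz
    rw [zm1_six hτ hz']
    have h1 : 0 < ‖(1 : ℂ) - z‖ := norm_pos_iff.2 (zm1_one_sub_ne hz')
    have h2 : 0 < 1 - ‖z‖ ^ 2 := by nlinarith [norm_nonneg z]
    positivity
  · -- (7)
    intro τ w hτ hw
    have h1 : w - (starRingEnd ℂ) τ ≠ 0 := zm1_den2 hτ hw
    refine ⟨(w - τ) / (w - (starRingEnd ℂ) τ), ?_, ?_⟩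
    · have h2 : ‖w - τ‖ < ‖w - (starRingEnd ℂ) τ‖ := by
        have h3 : ‖w - τ‖ ^ 2 < ‖w - (starRingEnd ℂ) τ‖ ^ 2 := by
          rw [← Complex.normSq_eq_norm_sq, ← Complex.normSq_eq_norm_sq, Complex.normSq_apply,
            Complex.normSq_apply]
          simp only [sub_re, sub_im, conj_re, conj_im]
          nlinarith
        exact lt_of_pow_lt_pow_left₀ 2 (norm_nonneg _) h3
      rw [mem_ball_zero_iff, norm_div, div_lt_one (norm_pos_iff.2 h1)]
      exact h2
    · rw [zm1_cay _ _ _ h1]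
      have h2 : w - (starRingEnd ℂ) τ - (w - τ) ≠ 0 := by
        intro h
        have h3 : (w - (starRingEnd ℂ) τ - (w - τ)).im = 0 := by rw [h]; rfl
        simp only [sub_im, conj_im] at h3
        linarith
      rw [div_eq_iff h2]
      ring

end Pool.Agent.H63.TC
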